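import Mathlib
import Pool.Agent.Helpers.DInfC

set_option autoImplicit false

open MeasureTheory Filter Topology
open scoped ENNReal

namespace Pool.Agent.Results.MP_3c0e9a_an.L1FailsDInfty

/-- Property `(D_p)` of a real Banach space `X`: every sequence `f n : [0,1] → X` of strongly
measurable functions (almost everywhere limits of simple functions, with respect to Lebesgue
measure `volume` on `[0,1]`) which is bounded in `L^p([0,1], X)` and converges scalarly in measure
to `0` has a subsequence converging scalarly to `0` almost everywhere (the exceptional null set may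
depend on the functional). -/
def PropertyD (p : ℝ≥0∞) (X : Type*) [NormedAddCommGroup X] [NormedSpace ℝ X] : Prop :=
  ∀ f : ℕ → unitInterval → X,
    (∀ n, AEStronglyMeasurable (f n) volume) →
    (∃ C : ℝ≥0∞, C ≠ ∞ ∧ ∀ n, eLpNorm (f n) p volume ≤ C) →
    (∀ x : StrongDual ℝ X, TendstoInMeasure volume (fun n t => x (f n t)) atTop (fun _ => 0)) →
    ∃ ns : ℕ → ℕ, StrictMono ns ∧
      ∀ x : StrongDual ℝ X, ∀ᵐ t ∂(volume : Measure unitInterval),
        Tendsto (fun k => x (f (ns k) t)) atTop (𝓝 0)

/-- `L^1[0,1]` fails property `(D_∞)`. -/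
theorem result : ¬ PropertyD ∞ (Lp ℝ 1 (volume : Measure unitInterval)) := by
  intro h
  obtain ⟨Y, h1, h2, h3⟩ := Pool.Agent.Helpers.DInf.exists_iid
  let D : Pool.Agent.Helpers.DInf.Data := ⟨Y, h1, h2, h3⟩
  obtain ⟨ns, hns, hall⟩ := h D.f (fun n => (D.f_meas n).aestronglyMeasurable)
    ⟨1, ENNReal.one_ne_top, D.f_bdd⟩ D.f_inMeasure
  obtain ⟨x, hx⟩ := D.fail ns hns
  exact hx (hall x)

end Pool.Agent.Results.MP_3c0e9a_an.L1FailsDInfty
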